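import Pool.Agent.Q189.Iso3

/-!
# MP_08e0ef_gt: no compact convex set in the plane has exactly two circular isoptics
-/

set_option autoImplicit false

open Real

namespace Pool.Agent.Results.MP_08e0ef_gt.NeverExactlyTwo

open Q189.IsoDefs Q189.Iso

/-- a set with a circular isoptic has at least two points -/
theorem nontrivial_of_isCircle {S : Set E2} {α : ℝ} (hα : 0 < α) (h : IsCircle (isoptic S α)) :
    S.Nontrivial := by
  by_contra hnt
  rw [Set.not_nontrivial_iff] at hnt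
  obtain ⟨O, R, hR, he⟩ := h
  have hmem : O + R • uu 0 ∈ isoptic S α := by
    rw [he, mem_sphere_iff_norm, add_sub_cancel_left, norm_smul, norm_uu, mul_one,
      Real.norm_of_nonneg hR.le]
  obtain ⟨h1, h2⟩ := hmem
  rcases S.eq_empty_or_nonempty with h0 | ⟨p, hp⟩
  · rw [h0] at h2
    simp only [sightAngle, Set.mem_empty_iff_false, false_and, exists_false,
      Set.setOf_false, Real.sSup_empty] at h2
    exact hα.ne h2
  · have hS : S = {p} := hnt.eq_singleton_of_mem hp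
    rw [hS] at h1 h2
    have hne : p - (O + R • uu 0) ≠ 0 := by
      intro h3
      exact h1 (sub_eq_zero.1 h3).symm
    have e : sightAngle {p} (O + R • uu 0) = 0 := by
      unfold sightAngle
      apply IsGreatest.csSup_eq
      have h4 : EuclideanGeometry.angle p (O + R • uu 0) p = 0 := by
        unfold EuclideanGeometry.angle
        rw [vsub_eq_sub]
        exact InnerProductGeometry.angle_self hne
      constructor
      · exact ⟨p, rfl, p, rfl, h4.symm⟩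
      · rintro t ⟨x, hx, y, hy, rfl⟩
        rw [Set.mem_singleton_iff.1 hx, Set.mem_singleton_iff.1 hy, h4]
    rw [e] at h2
    exact hα.ne h2

/-- **Theorem.** (1) Let `S` be a compact convex set in the plane which has two circular isoptics,
at the angles `α₁ ≠ α₂`. Then `S` is a disk of positive radius, and so all its isoptics are circles,
concentric with `S`.
(2) Consequently the number of circular isoptics of a compact convex set is never exactly two.
(3) The conclusion of (1) already holds if `S` is compact, convex and has at least two points and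
its isoptics at the two angles `α₁ ≠ α₂` are merely contained in circles. -/
theorem result :
    (∀ S : Set E2, IsCompact S → Convex ℝ S → ∀ α₁ ∈ Set.Ioo 0 π, ∀ α₂ ∈ Set.Ioo 0 π, α₁ ≠ α₂ →
      IsCircle (isoptic S α₁) → IsCircle (isoptic S α₂) →
      ∃ (O : E2) (r : ℝ), 0 < r ∧ S = Metric.closedBall O r ∧
        ∀ α ∈ Set.Ioo 0 π, isoptic S α = Metric.sphere O (r / sin (α / 2))) ∧
    (∀ S : Set E2, IsCompact S → Convex ℝ S →
      {α : ℝ | α ∈ Set.Ioo 0 π ∧ IsCircle (isoptic S α)}.encard ≠ 2) ∧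
    (∀ S : Set E2, IsCompact S → Convex ℝ S → S.Nontrivial →
      ∀ α₁ ∈ Set.Ioo 0 π, ∀ α₂ ∈ Set.Ioo 0 π, α₁ ≠ α₂ → ∀ (O₁ O₂ : E2) (R₁ R₂ : ℝ),
      isoptic S α₁ ⊆ Metric.sphere O₁ R₁ → isoptic S α₂ ⊆ Metric.sphere O₂ R₂ →
      ∃ (O : E2) (r : ℝ), 0 < r ∧ S = Metric.closedBall O r ∧
        ∀ α ∈ Set.Ioo 0 π, isoptic S α = Metric.sphere O (r / sin (α / 2))) := by
  have h3 : ∀ S : Set E2, IsCompact S → Convex ℝ S → S.Nontrivial →
      ∀ α₁ ∈ Set.Ioo 0 π, ∀ α₂ ∈ Set.Ioo 0 π, α₁ ≠ α₂ → ∀ (O₁ O₂ : E2) (R₁ R₂ : ℝ),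
      isoptic S α₁ ⊆ Metric.sphere O₁ R₁ → isoptic S α₂ ⊆ Metric.sphere O₂ R₂ →
      ∃ (O : E2) (r : ℝ), 0 < r ∧ S = Metric.closedBall O r ∧
        ∀ α ∈ Set.Ioo 0 π, isoptic S α = Metric.sphere O (r / sin (α / 2)) := by
    intro S hS hc hnt α₁ h1 α₂ h2 hne O₁ O₂ R₁ R₂ hi1 hi2
    obtain ⟨O, r, hr, he⟩ := two_circles hS hc hnt h1.1 h1.2 h2.1 h2.2 hne hi1 hi2
    refine ⟨O, r, hr, he, fun α hα => ?_⟩
    rw [he]
    exact isoptic_ball O hr hα.1 hα.2
  have h1 : ∀ S : Set E2, IsCompact S → Convex ℝ S → ∀ α₁ ∈ Set.Ioo 0 π, ∀ α₂ ∈ Set.Ioo 0 π,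
      α₁ ≠ α₂ → IsCircle (isoptic S α₁) → IsCircle (isoptic S α₂) →
      ∃ (O : E2) (r : ℝ), 0 < r ∧ S = Metric.closedBall O r ∧
        ∀ α ∈ Set.Ioo 0 π, isoptic S α = Metric.sphere O (r / sin (α / 2)) := by
    intro S hS hc α₁ h1 α₂ h2 hne hi1 hi2
    have hnt := nontrivial_of_isCircle h1.1 hi1
    obtain ⟨O₁, R₁, _, e1⟩ := hi1
    obtain ⟨O₂, R₂, _, e2⟩ := hi2
    exact h3 S hS hc hnt α₁ h1 α₂ h2 hne O₁ O₂ R₁ R₂ e1.le e2.le
  refine ⟨h1, ?_, h3⟩
  intro S hS hc hcard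
  rw [Set.encard_eq_two] at hcard
  obtain ⟨α₁, α₂, hne, he⟩ := hcard
  have m1 : α₁ ∈ {α : ℝ | α ∈ Set.Ioo 0 π ∧ IsCircle (isoptic S α)} := by rw [he]; simp
  have m2 : α₂ ∈ {α : ℝ | α ∈ Set.Ioo 0 π ∧ IsCircle (isoptic S α)} := by rw [he]; simp
  obtain ⟨O, r, hr, _, hall⟩ := h1 S hS hc α₁ m1.1 α₂ m2.1 hne m1.2 m2.2
  have hsub : Set.Ioo 0 π ⊆ ({α₁, α₂} : Set ℝ) := by
    rw [← he]
    intro α hα
    refine ⟨hα, O, r / sin (α / 2), ?_, hall α hα⟩
    exact div_pos hr (sin_pos_of_pos_of_lt_pi (by linarith [hα.1]) (by linarith [hα.1, hα.2]))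
  exact (Set.Ioo_infinite pi_pos) ((Set.toFinite _).subset hsub)

end Pool.Agent.Results.MP_08e0ef_gt.NeverExactlyTwo
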